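import Pool.Agent.Run7.h500.RD.Stm

set_option autoImplicit false

open MeasureTheory Filter Topology Set

namespace Run7.h417.RD

open Pool.Agent.Run7.h500.RD

/-- the reflection as a measurable equivalence -/
noncomputable def fe : (ℝ × ℝ) ≃ᵐ (ℝ × ℝ) :=
  MeasurableEquiv.prodCongr (MeasurableEquiv.refl ℝ) (MeasurableEquiv.neg ℝ)

lemma fe_apply (z : ℝ × ℝ) : fe z = (z.1, -z.2) := rfl

lemma fe_mp : MeasurePreserving (fe : ℝ × ℝ → ℝ × ℝ) volume volume :=
  (MeasurePreserving.id (volume : Measure ℝ)).prod (Measure.measurePreserving_neg (volume : Measure ℝ))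

noncomputable def ge : (ℝ × (ℝ × ℝ)) ≃ᵐ (ℝ × (ℝ × ℝ)) :=
  MeasurableEquiv.prodCongr (MeasurableEquiv.neg ℝ) fe

lemma ge_apply (t : ℝ × (ℝ × ℝ)) : ge t = (-t.1, (t.2.1, -t.2.2)) := rfl

lemma ge_mp : MeasurePreserving (ge : ℝ × (ℝ × ℝ) → ℝ × (ℝ × ℝ)) volume volume :=
  (Measure.measurePreserving_neg (volume : Measure ℝ)).prod fe_mp

theorem t_FLIP : S_FLIP := by
  intro f m k C hf
  refine ⟨?_, hf.hk, ?_, ?_, ?_, ?_⟩
  · exact hf.cont.comp (continuous_fst.prodMk continuous_snd.neg)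
  · intro x y
    have := hf.growth x (-y)
    rw [abs_neg] at this
    exact this
  · intro a
    rcases hf.wint (-a) with h | ⟨δ, hδ, h⟩
    · left
      have h1 := fe_mp.integrable_comp_of_integrable h
      have e : ((fun z : ℝ × ℝ => f z / (1 + |z.1 - -a * z.2|) ^ k) ∘ (fe : ℝ × ℝ → ℝ × ℝ))
          = fun z : ℝ × ℝ => flip f z / (1 + |z.1 - a * z.2|) ^ k := by
        funext z
        show f (z.1, -z.2) / (1 + |z.1 - -a * -z.2|) ^ k = f (z.1, -z.2) / (1 + |z.1 - a * z.2|) ^ k
        rw [neg_mul_neg]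
      rw [e] at h1
      exact h1
    · right
      refine ⟨δ, hδ, ?_⟩
      have h1 := (ge_mp.integrableOn_comp_preimage ge.measurableEmbedding).mpr h
      have e : ((fun t : ℝ × (ℝ × ℝ) => f t.2 / (1 + |t.2.1 - t.1 * t.2.2|) ^ k) ∘
          (ge : ℝ × (ℝ × ℝ) → ℝ × (ℝ × ℝ)))
          = fun t : ℝ × (ℝ × ℝ) => flip f t.2 / (1 + |t.2.1 - t.1 * t.2.2|) ^ k := by
        funext t
        show f (t.2.1, -t.2.2) / (1 + |t.2.1 - -t.1 * -t.2.2|) ^ k
          = f (t.2.1, -t.2.2) / (1 + |t.2.1 - t.1 * t.2.2|) ^ k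
        rw [neg_mul_neg]
      have e2 : (ge : ℝ × (ℝ × ℝ) → ℝ × (ℝ × ℝ)) ⁻¹' (Ioo (-a - δ) (-a + δ) ×ˢ univ)
          = Ioo (a - δ) (a + δ) ×ˢ univ := by
        ext t
        simp only [mem_preimage, ge_apply, mem_prod, mem_Ioo, mem_univ, and_true]
        constructor
        · rintro ⟨h1, h2⟩
          constructor <;> linarith
        · rintro ⟨h1, h2⟩
          constructor <;> linarith
      rw [e, e2] at h1
      exact h1
  · intro a b
    have h1 := integral_neg_eq_self (fun y : ℝ => f (b + -a * y, y)) volume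
    rw [hf.zero (-a) b] at h1
    have e : ∀ y : ℝ, flip f (b + a * y, y) = f (b + -a * -y, -y) := by
      intro y
      show f (b + a * y, -y) = f (b + -a * -y, -y)
      rw [neg_mul_neg]
    simp only [e]
    exact h1
  · intro y
    exact hf.hor (-y)

/-- the translation -/
noncomputable def fa (y0 : ℝ) : (ℝ × ℝ) ≃ᵐ (ℝ × ℝ) :=
  MeasurableEquiv.prodCongr (MeasurableEquiv.refl ℝ) (MeasurableEquiv.addRight y0)

lemma fa_mp (y0 : ℝ) : MeasurePreserving (fa y0 : ℝ × ℝ → ℝ × ℝ) volume volume :=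
  (MeasurePreserving.id (volume : Measure ℝ)).prod
    (measurePreserving_add_right (volume : Measure ℝ) y0)

noncomputable def ga (y0 : ℝ) : (ℝ × (ℝ × ℝ)) ≃ᵐ (ℝ × (ℝ × ℝ)) :=
  MeasurableEquiv.prodCongr (MeasurableEquiv.refl ℝ) (fa y0)

lemma ga_mp (y0 : ℝ) : MeasurePreserving (ga y0 : ℝ × (ℝ × ℝ) → ℝ × (ℝ × ℝ)) volume volume :=
  (MeasurePreserving.id (volume : Measure ℝ)).prod (fa_mp y0)

lemma comparison (F s c L : ℝ) (k : ℕ) (hc : |c| ≤ L) :
    |F / (1 + |s|) ^ k| ≤ (1 + L) ^ k * |F / (1 + |s - c|) ^ k| := by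
  have h1 : 0 < 1 + |s| := by positivity
  have h2 : 0 < 1 + |s - c| := by positivity
  rw [abs_div, abs_div, abs_of_pos (pow_pos h1 k), abs_of_pos (pow_pos h2 k), mul_div_assoc',
    div_le_div_iff₀ (pow_pos h1 k) (pow_pos h2 k)]
  have h3 : 1 + |s - c| ≤ (1 + L) * (1 + |s|) := by
    have := abs_sub s c
    nlinarith [abs_nonneg s, abs_nonneg c]
  have h4 : (1 + |s - c|) ^ k ≤ (1 + L) ^ k * (1 + |s|) ^ k := by
    rw [← mul_pow]
    exact pow_le_pow_left₀ h2.le h3 k
  calc |F| * (1 + |s - c|) ^ k ≤ |F| * ((1 + L) ^ k * (1 + |s|) ^ k) :=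
        mul_le_mul_of_nonneg_left h4 (abs_nonneg F)
    _ = (1 + L) ^ k * |F| * (1 + |s|) ^ k := by ring

theorem t_TRANS : S_TRANS := by
  intro f m k C hf y0
  have hC : 0 ≤ C := by
    have h := hf.growth 0 0
    simp at h
    exact (abs_nonneg _).trans h
  have hgc : Continuous fun z : ℝ × ℝ => f (z.1, z.2 + y0) :=
    hf.cont.comp (continuous_fst.prodMk (continuous_snd.add continuous_const))
  refine ⟨C * (1 + |y0|) ^ m, ?_, hf.hk, ?_, ?_, ?_, ?_⟩
  · exact hgc
  · intro x y
    have h1 := hf.growth x (y + y0)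
    refine h1.trans ?_
    rw [mul_assoc, ← mul_pow]
    apply mul_le_mul_of_nonneg_left _ hC
    apply pow_le_pow_left₀ (by positivity)
    have := abs_add_le y y0
    nlinarith [abs_nonneg x, abs_nonneg y, abs_nonneg y0]
  · intro a
    rcases hf.wint a with h | ⟨δ, hδ, h⟩
    · left
      have h1 := (fa_mp y0).integrable_comp_of_integrable h
      have h2 := h1.norm.const_mul ((1 + |a * y0|) ^ k)
      refine h2.mono' ?_ (Eventually.of_forall fun z => ?_)
      · apply Continuous.aestronglyMeasurable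
        apply hgc.div
        · fun_prop
        · intro z
          positivity
      · show |f (z.1, z.2 + y0) / (1 + |z.1 - a * z.2|) ^ k| ≤
          (1 + |a * y0|) ^ k * |f (z.1, z.2 + y0) / (1 + |z.1 - a * (z.2 + y0)|) ^ k|
        have h3 := comparison (f (z.1, z.2 + y0)) (z.1 - a * z.2) (a * y0) (|a * y0|) k le_rfl
        have e : z.1 - a * z.2 - a * y0 = z.1 - a * (z.2 + y0) := by ring
        rw [e] at h3
        exact h3
    · right
      refine ⟨δ, hδ, ?_⟩
      have h1 := ((ga_mp y0).integrableOn_comp_preimage (ga y0).measurableEmbedding).mpr h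
      have e2 : (ga y0 : ℝ × (ℝ × ℝ) → ℝ × (ℝ × ℝ)) ⁻¹' (Ioo (a - δ) (a + δ) ×ˢ univ)
          = Ioo (a - δ) (a + δ) ×ˢ univ := by
        ext t
        constructor
        · rintro ⟨h1, _⟩
          exact ⟨h1, mem_univ _⟩
        · rintro ⟨h1, _⟩
          exact ⟨h1, mem_univ _⟩
      rw [e2] at h1
      have h2 := h1.norm.const_mul ((1 + (|a| + δ) * |y0|) ^ k)
      refine h2.mono' ?_ ?_
      · apply Continuous.aestronglyMeasurable
        apply Continuous.div
        · exact hgc.comp continuous_snd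
        · fun_prop
        · intro z
          positivity
      · rw [ae_restrict_iff' (measurableSet_Ioo.prod MeasurableSet.univ)]
        refine Eventually.of_forall fun t ht => ?_
        show |f (t.2.1, t.2.2 + y0) / (1 + |t.2.1 - t.1 * t.2.2|) ^ k| ≤
          (1 + (|a| + δ) * |y0|) ^ k *
            |f (t.2.1, t.2.2 + y0) / (1 + |t.2.1 - t.1 * (t.2.2 + y0)|) ^ k|
        have ht1 : |t.1| ≤ |a| + δ := by
          have h5 := ht.1.1
          have h6 := ht.1.2
          rw [abs_le]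
          constructor
          · have := neg_abs_le a
            linarith
          · have := le_abs_self a
            linarith
        have hL : |t.1 * y0| ≤ (|a| + δ) * |y0| := by
          rw [abs_mul]
          exact mul_le_mul_of_nonneg_right ht1 (abs_nonneg y0)
        have h3 := comparison (f (t.2.1, t.2.2 + y0)) (t.2.1 - t.1 * t.2.2) (t.1 * y0)
          ((|a| + δ) * |y0|) k hL
        have e : t.2.1 - t.1 * t.2.2 - t.1 * y0 = t.2.1 - t.1 * (t.2.2 + y0) := by ring
        rw [e] at h3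
        exact h3
  · intro a b
    have h1 := integral_add_right_eq_self (μ := (volume : Measure ℝ))
      (fun y : ℝ => f ((b - a * y0) + a * y, y)) y0
    rw [hf.zero a (b - a * y0)] at h1
    have e : ∀ y : ℝ, f (b + a * y, y + y0) = f ((b - a * y0) + a * (y + y0), y + y0) := by
      intro y
      congr 2
      ring
    simp only [e]
    exact h1
  · intro y
    exact hf.hor (y + y0)

end Run7.h417.RD
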